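import Pool.Agent.V1172.GP.Parts

/-!
# The extension conjecture for the paraboloid in `ℝ³` for densities of bounded cyclic variation

The cyclic variation of a function `g` on the plane at a point `x` is the integral, over all
directions, of the total variation of `g` along the open half-line from `x` in this direction (for
indicator functions: Král's cyclic variation of a set, the mean number of hits of the boundary by
half-lines from `x`). Two classes of densities, possibly unbounded, are considered.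

* One density: the superlevel sets of the positive and negative parts of `Re f` and `Im f` have cyclic
  variation at most `B` at all points (for instance, `B = 4πN`: they meet every open half-line in at
  most `N` intervals).
* Superpositions `∑_j e^{i(a_j·x + b_j|x|²)} φ_j(x) m_j(x)` with arbitrary `a_j ∈ ℝ²`, `b_j ∈ ℝ`, where
  `φ_j ≥ 0`, `|m_j| ≤ 1` and the functions `1_{φ_j > s} m_j` have cyclic variation at most `B_j`.

For them the extension conjecture is proved on the plane up to the endpoint `q = 3`, with the norm of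
weak `L³`, and on the whole scaling line: with an absolute constant `C`,

`|{|Ef| > λ}| ≤ C B λ⁻³ ‖f‖_3³`, `‖Ef‖_q ≤ C (B/(q-3))^{1/q} ‖f‖_{q/(q-2)}` (`q > 3`),

and the corresponding bounds for superpositions.
-/

set_option autoImplicit false

namespace Pool.Agent.Results.MP_5ab805_an.CyclicVariation

open MeasureTheory Set
open scoped ENNReal NNReal

/-- The extension operator of the paraboloid, for functions on the plane (a function on `U` is
extended by `0`). -/
noncomputable def ext (f : ℝ × ℝ → ℂ) (ξ : ℝ × ℝ × ℝ) : ℂ :=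
  ∫ x : ℝ × ℝ, Complex.exp (-(Complex.I *
    ((x.1 * ξ.1 + x.2 * ξ.2.1 + (x.1 ^ 2 + x.2 ^ 2) * ξ.2.2 : ℝ) : ℂ))) * f x

/-- The point at the distance `r` from `x` in the direction `θ`. -/
noncomputable def ray (x : ℝ × ℝ) (θ r : ℝ) : ℝ × ℝ :=
  (x.1 + r * Real.cos θ, x.2 + r * Real.sin θ)

/-- The cyclic variation of `g` at `x`: the integral over the directions of the total variation of `g`
along the open half-line from `x`. -/
noncomputable def cyc (g : ℝ × ℝ → ℂ) (x : ℝ × ℝ) : ℝ≥0∞ :=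
  ∫⁻ θ in Ioo (-Real.pi) Real.pi, eVariationOn (fun r => g (ray x θ r)) (Ioi 0)

/-- The set `A` has cyclic variation at most `B` at all points. -/
def SetBound (B : ℝ) (A : Set (ℝ × ℝ)) : Prop :=
  ∀ x, cyc (A.indicator 1) x ≤ ENNReal.ofReal B

/-- The superlevel sets of the positive and negative parts of `Re f` and `Im f` have cyclic variation at
most `B`. -/
def Tame (B : ℝ) (f : ℝ × ℝ → ℂ) : Prop :=
  ∀ s : ℝ, 0 < s → SetBound B {x | s < (f x).re} ∧ SetBound B {x | (f x).re < -s} ∧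
    SetBound B {x | s < (f x).im} ∧ SetBound B {x | (f x).im < -s}

/-- The data of a term `φ m` of a superposition: `φ ≥ 0`, `|m| ≤ 1` and the functions `1_{φ > s} m` have
cyclic variation at most `B`. -/
structure Term (B : ℝ) (φ : ℝ × ℝ → ℝ≥0) (m : ℝ × ℝ → ℂ) : Prop where
  pos : 0 < B
  meas_φ : Measurable φ
  meas_m : Measurable m
  bound_m : ∀ x, ‖m x‖ ≤ 1
  cyc_le : ∀ s : ℝ≥0, 0 < s → ∀ x, cyc ({y | s < φ y}.indicator m) x ≤ ENNReal.ofReal B

/-- The norm of `φ` in `L^q`. -/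
noncomputable def lq (q : ℝ) (φ : ℝ × ℝ → ℝ≥0) : ℝ≥0∞ :=
  (∫⁻ x, (φ x : ℝ≥0∞) ^ q) ^ (1 / q)

/-- `S` is a union of at most `N` intervals (of any kind, possibly empty). -/
def Intervals (N : ℕ) (S : Set ℝ) : Prop :=
  ∃ I : Fin N → Set ℝ, (∀ i, (I i).OrdConnected) ∧ S = ⋃ i, I i

/-! ### Proofs -/

open Pool.Agent.V1172.GP (Atm TT cA)

lemma cA_pos : 0 < cA := by rw [cA]; positivity

lemma atm_of {B : ℝ} {φ : ℝ × ℝ → ℝ≥0} {m : ℝ × ℝ → ℂ} (h : Term B φ m) : Atm B φ m :=
  ⟨h.pos, h.meas_φ, h.meas_m, h.bound_m, h.cyc_le⟩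

lemma atm_prt {B : ℝ} (hB : 0 < B) {f : ℝ × ℝ → ℂ} (hf : Measurable f) (h : Tame B f) (j : Fin 4) :
    Atm B (Pool.Agent.V1172.GP.prt f j) fun _ => Pool.Agent.V1172.GP.phs j := by
  refine ⟨hB, Pool.Agent.V1172.GP.prt_meas hf j, measurable_const,
    fun _ => Pool.Agent.V1172.GP.phs_norm j, fun s hs x => ?_⟩
  obtain ⟨a0, a1, a2, a3⟩ := h s (by exact_mod_cast hs)
  refine (Pool.Agent.V1172.GP.cyc_const _ _ (Pool.Agent.V1172.GP.phs_norm j) x).trans ?_
  have key : ∀ A : Set (ℝ × ℝ), SetBound B A → {y | s < Pool.Agent.V1172.GP.prt f j y} = A →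
      Pool.Agent.V1172.GP.cyc ({y | s < Pool.Agent.V1172.GP.prt f j y}.indicator 1) x ≤
        ENNReal.ofReal B := fun A hA e => by
    rw [e]
    exact hA x
  fin_cases j
  · refine key _ a0 ?_
    ext y
    simp only [mem_ofPred_eq, Pool.Agent.V1172.GP.prt]
    rw [Real.lt_toNNReal_iff_coe_lt]
    rfl
  · refine key _ a1 ?_
    ext y
    simp only [mem_ofPred_eq, Pool.Agent.V1172.GP.prt]
    rw [Real.lt_toNNReal_iff_coe_lt]
    show (s : ℝ) < -(f y).re ↔ _
    constructor <;> intro h <;> linarith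
  · refine key _ a2 ?_
    ext y
    simp only [mem_ofPred_eq, Pool.Agent.V1172.GP.prt]
    rw [Real.lt_toNNReal_iff_coe_lt]
    rfl
  · refine key _ a3 ?_
    ext y
    simp only [mem_ofPred_eq, Pool.Agent.V1172.GP.prt]
    rw [Real.lt_toNNReal_iff_coe_lt]
    show (s : ℝ) < -(f y).im ↔ _
    constructor <;> intro h <;> linarith

/-- the scaling line for one density -/
lemma line {B : ℝ} (hB : 0 < B) {f : ℝ × ℝ → ℂ} (hf : Measurable f) (hi : Integrable f)
    (h : Tame B f) {q : ℝ} (hq : 3 < q) :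
    eLpNorm (ext f) (ENNReal.ofReal q) volume ≤
      ENNReal.ofReal (4 * (128 * (64 * cA + 1)) * (B / (q - 3)) ^ (1 / q)) *
        eLpNorm f (ENNReal.ofReal (q / (q - 2))) volume := by
  have hq2 : 0 < q - 2 := by linarith
  have hqq : 0 < q / (q - 2) := by positivity
  refine (Pool.Agent.V1172.GP.one_strong hf hi.hasFiniteIntegral.ne (atm_prt hB hf h) hq).trans ?_
  rw [eLpNorm_eq_lintegral_rpow_enorm_toReal (f := f)
    (by rw [ne_eq, ENNReal.ofReal_eq_zero]; linarith) ENNReal.ofReal_ne_top,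
    ENNReal.toReal_ofReal hqq.le]

/-- densities supported in the unit square -/
lemma square {f : ℝ × ℝ → ℂ} (hf : Measurable f)
    (hs : ∀ x, f x ≠ 0 → |x.1| ≤ 1 / 2 ∧ |x.2| ≤ 1 / 2) {p q : ℝ} (_hp : 0 < p) (hpq : p ≤ q) :
    eLpNorm f (ENNReal.ofReal p) volume ≤ eLpNorm f (ENNReal.ofReal q) volume := by
  set J : Set (ℝ × ℝ) := Icc (-(1 / 2) : ℝ) (1 / 2) ×ˢ Icc (-(1 / 2) : ℝ) (1 / 2) with hJ
  have hJm : MeasurableSet J := measurableSet_Icc.prod measurableSet_Icc
  have hsup : Function.support f ⊆ J := fun x hx => by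
    obtain ⟨h1, h2⟩ := hs x hx
    exact ⟨abs_le.1 h1, abs_le.1 h2⟩
  have hvol : (volume : Measure (ℝ × ℝ)) J = 1 := by
    rw [Measure.volume_eq_prod, Measure.prod_prod, Real.volume_Icc]
    norm_num
  have hpr : IsProbabilityMeasure ((volume : Measure (ℝ × ℝ)).restrict J) :=
    ⟨by rw [Measure.restrict_apply_univ, hvol]⟩
  have e : ∀ r : ℝ≥0∞, eLpNorm f r ((volume : Measure (ℝ × ℝ)).restrict J) = eLpNorm f r volume :=
    fun r => eLpNorm_restrict_eq_of_support_subset hsup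
  rw [← e, ← e]
  exact eLpNorm_le_eLpNorm_of_exponent_le (ENNReal.ofReal_le_ofReal hpq) hf.aestronglyMeasurable

/-- **The extension conjecture for the paraboloid in `ℝ³` for densities of bounded cyclic
variation.** There is an absolute constant `C` such that:

1. (the inequality of Q1) for all `q > 3`, `B > 0` and all measurable `f` supported in the unit square
   with superlevel sets of cyclic variation at most `B`, `‖Ef‖_q ≤ C (B/(q-3))^{1/q} ‖f‖_q`;
2. for all integrable `f` on the plane with superlevel sets of cyclic variation at most `B`,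
   `|{|Ef| > λ}| ≤ C B λ⁻³ ‖f‖_3³` for all `λ > 0`, and
   `‖Ef‖_q ≤ C (B/(q-3))^{1/q} ‖f‖_{q/(q-2)}` for all `q > 3`;
3. for all superpositions `f(x) = ∑_j e^{i(a_j·x + b_j|x|²)} φ_j(x) m_j(x)` with `∑_j ∫ φ_j < ∞`,
   `|{|Ef| > λ}| ≤ C (S/λ)³` for all `λ > 0` and all `S ≥ ∑_j B_j^{1/3} ‖φ_j‖_3`, and
   `‖Ef‖_q ≤ C (q-3)^{-1/q} ∑_j B_j^{1/q} ‖φ_j‖_{q/(q-2)}` for all `q > 3`;
4. a set which meets every open half-line in at most `N` intervals has cyclic variation at most
   `4πN` at all points. -/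
theorem result :
    (∃ C : ℝ, 0 < C ∧
    (∀ (q B : ℝ) (f : ℝ × ℝ → ℂ), 3 < q → 0 < B → Measurable f → Tame B f →
      (∀ x, f x ≠ 0 → |x.1| ≤ 1 / 2 ∧ |x.2| ≤ 1 / 2) →
      eLpNorm (ext f) (ENNReal.ofReal q) volume ≤
        ENNReal.ofReal (C * (B / (q - 3)) ^ (1 / q)) * eLpNorm f (ENNReal.ofReal q) volume) ∧
    (∀ (B : ℝ) (f : ℝ × ℝ → ℂ), 0 < B → Measurable f → Integrable f → Tame B f →
      (∀ lam : ℝ, 0 < lam → volume {ξ | lam < ‖ext f ξ‖} ≤
        ENNReal.ofReal (C * B / lam ^ 3) * ∫⁻ x, ‖f x‖ₑ ^ 3) ∧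
      ∀ q : ℝ, 3 < q → eLpNorm (ext f) (ENNReal.ofReal q) volume ≤
        ENNReal.ofReal (C * (B / (q - 3)) ^ (1 / q)) *
          eLpNorm f (ENNReal.ofReal (q / (q - 2))) volume) ∧
    ∀ (a : ℕ → ℝ × ℝ) (b B : ℕ → ℝ) (φ : ℕ → ℝ × ℝ → ℝ≥0) (m : ℕ → ℝ × ℝ → ℂ)
      (f : ℝ × ℝ → ℂ), (∀ j, Term (B j) (φ j) (m j)) → ∑' j, ∫⁻ x, φ j x ≠ ∞ →
      (∀ᵐ x, f x = ∑' j, Complex.exp (Complex.I *
        ((x.1 * (a j).1 + x.2 * (a j).2 + (x.1 ^ 2 + x.2 ^ 2) * b j : ℝ) : ℂ)) *
          (((φ j x : ℝ≥0) : ℂ) * m j x)) →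
      (∀ S lam : ℝ, 0 < S → 0 < lam →
        ∑' j, ENNReal.ofReal (B j) ^ (1 / 3 : ℝ) * lq 3 (φ j) ≤ ENNReal.ofReal S →
        volume {ξ | lam < ‖ext f ξ‖} ≤ ENNReal.ofReal (C * (S / lam) ^ 3)) ∧
      ∀ q : ℝ, 3 < q → eLpNorm (ext f) (ENNReal.ofReal q) volume ≤
        ENNReal.ofReal (C * (1 / (q - 3)) ^ (1 / q)) *
          ∑' j, ENNReal.ofReal (B j) ^ (1 / q) * lq (q / (q - 2)) (φ j)) ∧
    ∀ (N : ℕ) (A : Set (ℝ × ℝ)), (∀ x θ, Intervals N {r | 0 < r ∧ ray x θ r ∈ A}) →
      SetBound (4 * Real.pi * N) A := by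
  have hcA := cA_pos
  have hpi := Real.pi_pos
  set c₁ : ℝ := 4 * (128 * (64 * cA + 1)) with hc₁
  set c₂ : ℝ := 256 * (32 * Real.pi * cA) with hc₂
  have hc₁0 : 0 < c₁ := by positivity
  have hc₂0 : 0 < c₂ := by positivity
  refine ⟨⟨c₁ + c₂, by positivity, ?_, ?_, ?_⟩, ?_⟩
  · intro q B f hq hB hf hT hs
    have hq2 : 0 < q - 2 := by linarith
    have hq3 : 0 < q - 3 := by linarith
    have hq0 : 0 < q := by linarith
    have hqq : 0 < q / (q - 2) := by positivity
    have hqle : q / (q - 2) ≤ q := by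
      rw [div_le_iff₀ hq2]
      nlinarith
    by_cases hfin : eLpNorm f (ENNReal.ofReal q) volume = ∞
    · rw [hfin, ENNReal.mul_top]
      · exact le_top
      · rw [ne_eq, ENNReal.ofReal_eq_zero, not_le]
        positivity
    have hi : Integrable f := by
      rw [← memLp_one_iff_integrable]
      refine ⟨hf.aestronglyMeasurable, lt_of_le_of_lt ?_ (lt_top_iff_ne_top.2 hfin)⟩
      have := square hf hs (p := 1) (q := q) (by norm_num) (by linarith)
      rwa [ENNReal.ofReal_one] at this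
    refine (line hB hf hi hT hq).trans (mul_le_mul' (ENNReal.ofReal_le_ofReal ?_)
      (square hf hs hqq hqle))
    rw [← hc₁]
    gcongr
    linarith
  · intro B f hB hf hi hT
    refine ⟨fun lam hlam => ?_, fun q hq => ?_⟩
    · refine (Pool.Agent.V1172.GP.one_weak hf hi.hasFiniteIntegral.ne (atm_prt hB hf hT) hlam).trans ?_
      rw [← hc₂]
      refine mul_le_mul' (ENNReal.ofReal_le_ofReal ?_) le_rfl
      gcongr
      linarith
    · have hq3 : 0 < q - 3 := by linarith
      refine (line hB hf hi hT hq).trans (mul_le_mul' (ENNReal.ofReal_le_ofReal ?_) le_rfl)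
      rw [← hc₁]
      gcongr
      linarith
  · intro a b B φ m f hT hsum hf
    have hA := fun j => atm_of (hT j)
    set η : ℕ → ℝ × ℝ × ℝ := fun j => ((a j).1, (a j).2, b j) with hη
    set F : ℕ → ℝ × ℝ → ℂ := fun j => Pool.Agent.V1172.GP.mdl (η j) (φ j) (m j) with hF
    have hFm : ∀ j, Measurable (F j) := fun j =>
      Pool.Agent.V1172.GP.mdl_meas (η j) (hT j).meas_φ (hT j).meas_m
    have hFs : ∑' j, ∫⁻ x, ‖F j x‖ₑ ≠ ∞ := ne_top_of_le_ne_top hsum
      (ENNReal.tsum_le_tsum fun j => lintegral_mono fun x =>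
        Pool.Agent.V1172.GP.mdl_enorm _ _ (hT j).bound_m x)
    have hfF : ∀ᵐ x, f x = ∑' j, F j x := hf
    have hfinj : ∀ j, ∫⁻ x, φ j x ≠ ∞ := fun j => ENNReal.ne_top_of_tsum_ne_top hsum j
    refine ⟨fun S lam hS hlam hSum => ?_, fun q hq => ?_⟩
    · have hne : ∀ j, ENNReal.ofReal (B j) ^ (1 / 3 : ℝ) * lq 3 (φ j) ≠ ∞ := fun j =>
        ENNReal.ne_top_of_tsum_ne_top (ne_top_of_le_ne_top ENNReal.ofReal_ne_top hSum) j
      set β : ℕ → ℝ := fun j => (ENNReal.ofReal (B j) ^ (1 / 3 : ℝ) * lq 3 (φ j)).toReal with hβ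
      have hβe : ∀ j, ENNReal.ofReal (β j) = ENNReal.ofReal (B j) ^ (1 / 3 : ℝ) * lq 3 (φ j) :=
        fun j => ENNReal.ofReal_toReal (hne j)
      have hβ0 : ∀ j, 0 ≤ β j := fun j => ENNReal.toReal_nonneg
      have hβ3 : ∀ j, ENNReal.ofReal (β j ^ 3) = ENNReal.ofReal (B j) * ∫⁻ x, (φ j x : ℝ≥0∞) ^ 3 := by
        intro j
        rw [ENNReal.ofReal_pow (hβ0 j), hβe, mul_pow, lq, ← ENNReal.rpow_natCast,
          ← ENNReal.rpow_natCast, ← ENNReal.rpow_mul, ← ENNReal.rpow_mul]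
        norm_num
      refine (Pool.Agent.V1172.GP.sum_weak Pool.Agent.V1172.GP.ker_ker
        (C := 32 * Real.pi * cA) (by positivity) hFm hFs hfF hβ0 (fun j l hl => ?_) hS
        (by simp only [hβe]; exact hSum) hlam).trans ?_
      · refine (Pool.Agent.V1172.GP.atm_weak (hA j) (hfinj j) (η j) hl).trans (le_of_eq ?_)
        have e1 : 32 * Real.pi * cA * B j / l ^ 3 = 32 * Real.pi * cA / l ^ 3 * B j := by ring
        have hBj := (hT j).pos
        rw [e1, ENNReal.ofReal_mul (by positivity), mul_assoc, ← hβ3,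
          ← ENNReal.ofReal_mul (by positivity)]
        congr 1
        ring
      · apply ENNReal.ofReal_le_ofReal
        have : 12 * (32 * Real.pi * cA) ≤ c₁ + c₂ := by
          rw [hc₂]
          nlinarith [mul_pos hpi hcA]
        gcongr
    · have hq0 : 0 < q := by linarith
      have hq3 : 0 < q - 3 := by linarith
      refine (Pool.Agent.V1172.GP.sum_strong Pool.Agent.V1172.GP.ker_ker hFm hFs hfF
        (p := q) (by linarith)).trans ?_
      rw [← ENNReal.tsum_mul_left]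
      refine ENNReal.tsum_le_tsum fun j => ?_
      have hBj := (hT j).pos
      refine (Pool.Agent.V1172.GP.atm_strong (hA j) (hfinj j) (η j) hq).trans ?_
      rw [← mul_assoc]
      refine mul_le_mul' ?_ le_rfl
      rw [ENNReal.ofReal_rpow_of_pos hBj, ← ENNReal.ofReal_mul (by positivity)]
      apply ENNReal.ofReal_le_ofReal
      have e1 : (B j / (q - 3)) ^ (1 / q) = (1 / (q - 3)) ^ (1 / q) * B j ^ (1 / q) := by
        rw [← Real.mul_rpow (by positivity) hBj.le]
        congr 1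
        ring
      rw [e1, ← mul_assoc]
      gcongr
      rw [hc₁]
      nlinarith
  · intro N A h x
    exact Pool.Agent.V1172.GP.cyc_rays (N := N) (A := A) (x := x) fun θ => h x θ

end Pool.Agent.Results.MP_5ab805_an.CyclicVariation
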