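import Pool.Agent.V1178.LI.Fin

/-!
# The extension conjecture in `ℝ³` for densities with simple superlevel sets on lines

Let `E` be the extension operator of the paraboloid in `ℝ³`. In the full conjectured range `q > 3`
the estimate `‖E f‖_q ≤ C ‖f‖_q` of the problem (and `‖E f‖_q ≤ C ‖f‖_p` for `p ≥ 3`,
`1 / p < 1 - 2 / q`) is proved for all, possibly unbounded, densities `f` for which there is a
direction such that on every line in this direction the superlevel sets of the positive and negative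
parts of `Re f` and `Im f` are unions of at most `n` intervals. There is no condition how `f`
varies from line to line. The constant is `C n^(1/6)`, with `C = C(p, q)`; it does not depend on the
direction. The number `n` may depend on the line, and multipliers with half a derivative in the
direction of the lines and sums of such functions with different directions are allowed.
-/

set_option autoImplicit false

namespace Pool.Agent.Results.MP_5ab805_an.LevelIntervals

open MeasureTheory Set Complex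
open scoped ENNReal NNReal

/-- The Fourier extension operator of the paraboloid: `Ef(ξ) = ∫ exp(-i Φ(x)·ξ) f(x) dx`,
`Φ(x) = (x_1, x_2, x_1² + x_2²)`. Functions on `U` are extended by zero. -/
noncomputable def ext (f : ℝ × ℝ → ℂ) (ξ : ℝ × ℝ × ℝ) : ℂ :=
  ∫ x : ℝ × ℝ, cexp (-(I * ((x.1 * ξ.1 + x.2 * ξ.2.1 + (x.1 ^ 2 + x.2 ^ 2) * ξ.2.2 : ℝ) : ℂ))) *
    f x

/-- The coordinates `(u, v)` of the point `x` in the orthonormal frame rotated by `θ`. -/
noncomputable def frame (θ : ℝ) (x : ℝ × ℝ) : ℝ × ℝ :=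
  (x.1 * Real.cos θ + x.2 * Real.sin θ, x.2 * Real.cos θ - x.1 * Real.sin θ)

/-- The interval `[-1/2, 1/2]`. The square `J × J`, in any frame, contains the disc of radius `1/2`. -/
def J : Set ℝ := Icc (-(1 / 2)) (1 / 2)

/-- `S` is a union of at most `n` intervals (of any kind, possibly empty or infinite). -/
def Intervals (n : ℕ) (S : Set ℝ) : Prop :=
  ∃ I : Fin n → Set ℝ, (∀ i, (I i).OrdConnected) ∧ S = ⋃ i, I i

/-- All superlevel sets of `φ` are unions of at most `n` intervals. -/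
def LevelIntervals (n : ℕ) (φ : ℝ → ℝ≥0) : Prop := ∀ s : ℝ≥0, Intervals n {v | s < φ v}

/-- Half a derivative in `L²`, with constant `K`. -/
def HalfDerivative (K : ℝ≥0) (m : ℝ → ℂ) : Prop :=
  ∀ h ∈ Icc (0 : ℝ) 1, ∫⁻ v in Icc (-(1 / 2) : ℝ) (1 / 2 - h),
    ‖m (v + h) - m v‖ₑ ^ 2 ≤ ENNReal.ofReal (K * h)

/-- The function `F` is an atom of size at most `A`: `F = φ m` in some frame, where on the line with
the coordinate `u` the superlevel sets of `φ ≥ 0` are unions of at most `N u` intervals and `m` has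
half a derivative with constant `N u`, `|m| ≤ 1`; the size is the norm of `N(u)^(1/6) φ` in `L^p`. -/
def Atom (p : ℝ) (A : ℝ≥0∞) (F : ℝ × ℝ → ℂ) : Prop :=
  ∃ (θ : ℝ) (N : ℝ → ℕ) (φ : ℝ × ℝ → ℝ≥0) (m : ℝ × ℝ → ℂ),
    Measurable N ∧ (∀ u, 1 ≤ N u) ∧ Measurable φ ∧ Measurable m ∧ (∀ w, ‖m w‖ ≤ 1) ∧
    (∀ u v, u ∉ J ∨ v ∉ J → φ (u, v) = 0) ∧
    (∀ u, LevelIntervals (N u) fun v => φ (u, v)) ∧
    (∀ u, HalfDerivative (N u) fun v => m (u, v)) ∧
    (∀ x, F x = (φ (frame θ x) : ℂ) * m (frame θ x)) ∧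
    (∫⁻ w : ℝ × ℝ, (N w.1 : ℝ≥0∞) ^ (p / 6) * (φ w : ℝ≥0∞) ^ p) ^ (1 / p) ≤ A

lemma lvl_of {n : ℕ} {h : ℝ → ℝ} (H : ∀ s : ℝ, 0 ≤ s → Intervals n {v | s < h v}) :
    Pool.Agent.V1178.LI.Lvl n fun v => (h v).toNNReal := by
  intro s
  obtain ⟨I, hI, e⟩ := H s (NNReal.coe_nonneg _)
  refine ⟨I, hI, ?_⟩
  rw [← e]
  ext v
  exact Real.lt_toNNReal_iff_coe_lt

/-- **Densities with simple superlevel sets on lines.** Let `q > 3`, `p ≥ 3` and `1 / p < 1 - 2 / q`
(for instance `p = q`). There is `C` such that: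

1. For every function `f = ∑ F_j`, where `F_j` is an atom of size `A_j` and `∑ A_j < ∞`, the norm of
   `E f` in `L^q(ℝ³)` is at most `C ∑ A_j`.
2. Let `n ≥ 1` and let `g` be measurable, supported in `J × J`, and such that for all `u` and all
   `s ≥ 0` the sets of all `v` with `Re g(u,v) > s`, with `Re g(u,v) < -s`, with `Im g(u,v) > s` and
   with `Im g(u,v) < -s` are unions of at most `n` intervals. Then `‖E f‖_q ≤ C n^(1/6) ‖f‖_p` for
   `f = g` in the coordinates of any frame. -/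
theorem result (p q : ℝ) (hq : 3 < q) (hp : 3 ≤ p) (hpq : 1 / p < 1 - 2 / q) :
    ∃ C : ℝ≥0,
      (∀ (F : ℕ → ℝ × ℝ → ℂ) (A : ℕ → ℝ≥0∞) (f : ℝ × ℝ → ℂ),
        (∀ j, Atom p (A j) (F j)) → ∑' j, A j ≠ ∞ → (∀ᵐ x, f x = ∑' j, F j x) →
        eLpNorm (ext f) (ENNReal.ofReal q) volume ≤ C * ∑' j, A j) ∧
      ∀ (n : ℕ), 1 ≤ n → ∀ (θ : ℝ) (g : ℝ × ℝ → ℂ), Measurable g →
        (∀ u v, u ∉ J ∨ v ∉ J → g (u, v) = 0) →
        (∀ u s : ℝ, 0 ≤ s → Intervals n {v | s < (g (u, v)).re} ∧
          Intervals n {v | (g (u, v)).re < -s} ∧ Intervals n {v | s < (g (u, v)).im} ∧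
          Intervals n {v | (g (u, v)).im < -s}) →
        eLpNorm (ext fun x => g (frame θ x)) (ENNReal.ofReal q) volume ≤
          C * (n : ℝ≥0∞) ^ (1 / 6 : ℝ) *
            eLpNorm (fun x => g (frame θ x)) (ENNReal.ofReal p) volume := by
  have hq0 : 0 < q := by linarith
  have hp0 : 0 < p := by linarith
  have hpq' : q < p * (q - 2) := by
    have h1 : p * q * (1 / p) < p * q * (1 - 2 / q) := by gcongr
    have e1 : p * q * (1 / p) = q := by field_simp
    have e2 : p * q * (1 - 2 / q) = p * (q - 2) := by field_simp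
    rwa [e1, e2] at h1
  obtain ⟨C₁, h1⟩ := Pool.Agent.V1178.LI.sums p q hq hp hpq'
  obtain ⟨C₂, h2⟩ := Pool.Agent.V1178.LI.simple p q hq hp hpq'
  refine ⟨C₁ + C₂, ?_, ?_⟩
  · intro F A f hF hA hf
    refine (h1 F A f (fun j => ?_) hA hf).trans ?_
    · obtain ⟨θ, N, φ, m, a1, a2, a3, a4, a5, a6, a7, a8, a9, a10⟩ := hF j
      exact ⟨θ, N, φ, m, ⟨a1, a2, a3, a4, a5, a6, a7, a8⟩, a9, a10⟩
    · gcongr
      push_cast
      exact le_self_add
  · intro n hn θ g hg hs hl
    have h3 := h2 θ (fun _ => n) g measurable_const (fun _ => hn) hg hs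
      (fun u => lvl_of fun s h0 => (hl u s h0).1)
      (fun u => lvl_of fun s h0 => by
        have := (hl u s h0).2.1
        have e : {v | s < -(g (u, v)).re} = {v | (g (u, v)).re < -s} := by
          ext v
          simp only [mem_setOf_eq]
          constructor <;> intro h <;> linarith
        rw [e]
        exact this)
      (fun u => lvl_of fun s h0 => (hl u s h0).2.2.1)
      (fun u => lvl_of fun s h0 => by
        have := (hl u s h0).2.2.2
        have e : {v | s < -(g (u, v)).im} = {v | (g (u, v)).im < -s} := by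
          ext v
          simp only [mem_setOf_eq]
          constructor <;> intro h <;> linarith
        rw [e]
        exact this)
    refine h3.trans ?_
    have hgp : Measurable fun w => ‖g w‖ₑ ^ p := hg.enorm.pow_const p
    have e1 : eLpNorm (fun x => g (frame θ x)) (ENNReal.ofReal p) volume =
        (∫⁻ w, ‖g w‖ₑ ^ p) ^ (1 / p) := by
      rw [eLpNorm_eq_lintegral_rpow_enorm_toReal (by simpa using hp0) ENNReal.ofReal_ne_top,
        ENNReal.toReal_ofReal hp0.le]
      congr 1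
      exact (Pool.Agent.V1157.TD.rot_mp θ).lintegral_comp hgp
    have e2 : (∫⁻ w : ℝ × ℝ, (n : ℝ≥0∞) ^ (p / 6) * ‖g w‖ₑ ^ p) ^ (1 / p) =
        (n : ℝ≥0∞) ^ (1 / 6 : ℝ) * (∫⁻ w, ‖g w‖ₑ ^ p) ^ (1 / p) := by
      rw [lintegral_const_mul _ hgp, ENNReal.mul_rpow_of_nonneg _ _ (by positivity),
        ← ENNReal.rpow_mul]
      congr 2
      field_simp
    rw [e1, e2, ← mul_assoc]
    gcongr
    push_cast
    exact le_add_self

end Pool.Agent.Results.MP_5ab805_an.LevelIntervals
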