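import Pool.Agent.Results.MP_b7167f_an.DilateMoments

/-!
# The extension conjecture for the paraboloid in `ℝ³` on average over linear images

For `f ∈ L^q(ℝ²)` with bounded support and a real `2 × 2` matrix `A` let `f_A(x) = f(A x)`. For every
`q > 3` and `1 ≤ p < 2` the `p`-th moment of `‖ℰ f_A‖_q^q` over the matrices in any compact set of
invertible matrices is at most `K ‖f‖_q^(pq)`; so `ℰ f_A ∈ L^q(ℝ³)` for almost every invertible `A`.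
-/

set_option autoImplicit false

namespace Pool.Agent.Results.MP_5ab805_an.LinearImages

open MeasureTheory Set Complex
open scoped ENNReal NNReal
open Pool.Agent.H147R3

/-- The Fourier extension operator of the paraboloid, for functions `f` on the plane (functions on
`U` are extended by zero): `ℰ f(ξ) = ∫ exp(-i Φ(x) · ξ) f(x) dx`, `Φ(x) = (x₁, x₂, x₁² + x₂²)`. -/
noncomputable def ext (f : ℝ × ℝ → ℂ) (ξ : ℝ × ℝ × ℝ) : ℂ :=
  ∫ x : ℝ × ℝ, cexp (-I * ((x.1 * ξ.1 + x.2 * ξ.2.1 + (x.1 ^ 2 + x.2 ^ 2) * ξ.2.2 : ℝ) : ℂ)) * f x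

/-- Real `2 × 2` matrices `((a, b), (c, d))`, with Lebesgue measure on the four entries. -/
abbrev Mat : Type := (ℝ × ℝ) × (ℝ × ℝ)

/-- The determinant of `((a, b), (c, d))`. -/
def det (A : Mat) : ℝ := A.1.1 * A.2.2 - A.1.2 * A.2.1

/-- The vector `A x`. -/
def app (A : Mat) (x : ℝ × ℝ) : ℝ × ℝ := (A.1.1 * x.1 + A.1.2 * x.2, A.2.1 * x.1 + A.2.2 * x.2)

/-- `f_A(x) = f(A x)`. -/
def image (A : Mat) (f : ℝ × ℝ → ℂ) (x : ℝ × ℝ) : ℂ := f (app A x)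

/-- The matrices with entries at most `m` in absolute value and `|det A| ≥ 1 / m`. Each compact set of
invertible matrices is contained in one of these compact sets. -/
def Comp (m : ℝ) : Set Mat :=
  {A | |A.1.1| ≤ m ∧ |A.1.2| ≤ m ∧ |A.2.1| ≤ m ∧ |A.2.2| ≤ m ∧ 1 / m ≤ |det A|}

/-- The weighted integral `∫ (1 + |ξ₃|)^γ |ℰ g(ξ)|^q dξ` over `ℝ³`; for `γ = 0` it is `‖ℰ g‖_q^q`. -/
noncomputable def NN (γ q : ℝ) (g : ℝ × ℝ → ℂ) : ℝ≥0∞ :=
  ∫⁻ ξ : ℝ × ℝ × ℝ, ENNReal.ofReal ((1 + |ξ.2.2|) ^ γ) * ‖ext g ξ‖ₑ ^ q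

lemma ext_PE (f : ℝ × ℝ → ℂ) (ξ : ℝ × ℝ × ℝ) : ext f ξ = PE.ext f ξ := by
  unfold ext PE.ext
  congr 1
  funext x
  push_cast
  rfl

/-! ### Scaling -/

lemma sc1 (g : ℝ → ℝ≥0∞) (hg : Measurable g) (c : ℝ) (hc : c ≠ 0) :
    ∫⁻ x, g (c * x) = ENNReal.ofReal |c⁻¹| * ∫⁻ x, g x := by
  have h1 := Real.map_volume_mul_left hc
  have h2 : ∫⁻ x, g x ∂(Measure.map (fun x => c * x) volume) = ∫⁻ x, g (c * x) :=
    lintegral_map hg (measurable_const_mul c)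
  rw [← h2, h1, lintegral_smul_measure, smul_eq_mul]

lemma sc2 (G : ℝ × ℝ → ℝ≥0∞) (hG : Measurable G) (a b : ℝ) (ha : a ≠ 0) (hb : b ≠ 0) :
    ∫⁻ x : ℝ × ℝ, G (a * x.1, b * x.2) =
      ENNReal.ofReal |a⁻¹| * (ENNReal.ofReal |b⁻¹| * ∫⁻ x, G x) := by
  have hm : Measurable fun x : ℝ × ℝ => G (a * x.1, b * x.2) := hG.comp (by fun_prop)
  have h1 : ∫⁻ x : ℝ × ℝ, G (a * x.1, b * x.2) = ∫⁻ x, ∫⁻ y, G (a * x, b * y) := by
    rw [Measure.volume_eq_prod, lintegral_prod _ hm.aemeasurable]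
  have h2 : ∫⁻ x : ℝ × ℝ, G x = ∫⁻ x, ∫⁻ y, G (x, y) := by
    rw [Measure.volume_eq_prod, lintegral_prod _ hG.aemeasurable]
  rw [h1, h2]
  have h3 : ∀ x : ℝ, ∫⁻ y, G (a * x, b * y) = ENNReal.ofReal |b⁻¹| * ∫⁻ y, G (a * x, y) := by
    intro x
    exact sc1 (fun y => G (a * x, y)) (hG.comp (by fun_prop)) b hb
  simp_rw [h3]
  rw [lintegral_const_mul' _ _ ENNReal.ofReal_ne_top]
  have h4 : Measurable fun x : ℝ => ∫⁻ y, G (x, y) := hG.lintegral_prod_right'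
  rw [sc1 (fun x => ∫⁻ y, G (x, y)) h4 a ha]
  ring

lemma sc3 (G : ℝ × ℝ × ℝ → ℝ≥0∞) (hG : Measurable G) (a b c : ℝ) (ha : a ≠ 0) (hb : b ≠ 0)
    (hc : c ≠ 0) :
    ∫⁻ x : ℝ × ℝ × ℝ, G (a * x.1, b * x.2.1, c * x.2.2) =
      ENNReal.ofReal |a⁻¹| * (ENNReal.ofReal |b⁻¹| * (ENNReal.ofReal |c⁻¹| * ∫⁻ x, G x)) := by
  have hm : Measurable fun x : ℝ × ℝ × ℝ => G (a * x.1, b * x.2.1, c * x.2.2) :=
    hG.comp (by fun_prop)
  have h1 : ∫⁻ x : ℝ × ℝ × ℝ, G (a * x.1, b * x.2.1, c * x.2.2)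
      = ∫⁻ x : ℝ, ∫⁻ y : ℝ × ℝ, G (a * x, b * y.1, c * y.2) := by
    rw [Measure.volume_eq_prod, lintegral_prod _ hm.aemeasurable]
  have h2 : ∫⁻ x : ℝ × ℝ × ℝ, G x = ∫⁻ x : ℝ, ∫⁻ y : ℝ × ℝ, G (x, y) := by
    rw [Measure.volume_eq_prod, lintegral_prod _ hG.aemeasurable]
  rw [h1, h2]
  have h3 : ∀ x : ℝ, ∫⁻ y : ℝ × ℝ, G (a * x, b * y.1, c * y.2)
      = ENNReal.ofReal |b⁻¹| * (ENNReal.ofReal |c⁻¹| * ∫⁻ y, G (a * x, y)) := by
    intro x
    exact sc2 (fun y => G (a * x, y)) (hG.comp (by fun_prop)) b c hb hc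
  simp_rw [h3]
  rw [lintegral_const_mul' _ _ ENNReal.ofReal_ne_top, lintegral_const_mul' _ _ ENNReal.ofReal_ne_top]
  have h4 : Measurable fun x : ℝ => ∫⁻ y, G (x, y) := hG.lintegral_prod_right'
  rw [sc1 (fun x => ∫⁻ y, G (x, y)) h4 a ha]
  ring

/-- `A ↦ A diag(1, l)` -/
def T (l : ℝ) (A : Mat) : Mat := ((A.1.1, l * A.1.2), (A.2.1, l * A.2.2))

lemma sc4 (G : Mat → ℝ≥0∞) (hG : Measurable G) (l : ℝ) (hl : l ≠ 0) :
    ∫⁻ B : Mat, G (T l B) = ENNReal.ofReal |l⁻¹| * (ENNReal.ofReal |l⁻¹| * ∫⁻ A, G A) := by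
  have hm : Measurable fun B : Mat => G (T l B) := hG.comp (by unfold T; fun_prop)
  have h1 : ∫⁻ B : Mat, G (T l B)
      = ∫⁻ u : ℝ × ℝ, ∫⁻ v : ℝ × ℝ, G ((1 * u.1, l * u.2), (1 * v.1, l * v.2)) := by
    rw [Measure.volume_eq_prod, lintegral_prod _ hm.aemeasurable]
    simp only [T, one_mul]
  have h2 : ∫⁻ A : Mat, G A = ∫⁻ u : ℝ × ℝ, ∫⁻ v : ℝ × ℝ, G (u, v) := by
    rw [Measure.volume_eq_prod, lintegral_prod _ hG.aemeasurable]
  rw [h1, h2]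
  have h3 : ∀ u : ℝ × ℝ, ∫⁻ v : ℝ × ℝ, G ((1 * u.1, l * u.2), (1 * v.1, l * v.2))
      = ENNReal.ofReal |l⁻¹| * ∫⁻ v, G ((1 * u.1, l * u.2), v) := by
    intro u
    have := sc2 (fun v => G ((1 * u.1, l * u.2), v)) (hG.comp (by fun_prop)) 1 l one_ne_zero hl
    rw [this]
    simp
  simp_rw [h3]
  rw [lintegral_const_mul' _ _ ENNReal.ofReal_ne_top]
  have h4 : Measurable fun u : ℝ × ℝ => ∫⁻ v, G (u, v) := hG.lintegral_prod_right'
  rw [sc2 (fun u => ∫⁻ v, G (u, v)) h4 1 l one_ne_zero hl]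
  simp

lemma haar2 : (volume : Measure (ℝ × ℝ)).IsAddHaarMeasure :=
  inferInstanceAs (((volume : Measure ℝ).prod (volume : Measure ℝ)).IsAddHaarMeasure)

lemma sc_app (h : ℝ × ℝ → ℝ≥0∞) (hh : Measurable h) (B : Mat) (hB : det B ≠ 0) :
    ∫⁻ x, h (app B x) = ENNReal.ofReal |(det B)⁻¹| * ∫⁻ x, h x := by
  haveI := haar2
  set f : (ℝ × ℝ) →ₗ[ℝ] (ℝ × ℝ) := Matrix.toLin (Module.Basis.finTwoProd ℝ)
    (Module.Basis.finTwoProd ℝ) !![B.1.1, B.1.2; B.2.1, B.2.2] with hf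
  have hfa : ∀ x, f x = app B x := by
    intro x
    rw [hf, Matrix.toLin_finTwoProd_apply]
    rfl
  have hfd : LinearMap.det f = det B := by
    rw [hf, LinearMap.det_toLin, Matrix.det_fin_two_of]
    rfl
  have h1 := Measure.map_linearMap_addHaar_eq_smul_addHaar (volume : Measure (ℝ × ℝ))
    (f := f) (by rw [hfd]; exact hB)
  have hfm : Measurable f := by
    have : (f : ℝ × ℝ → ℝ × ℝ) = app B := funext hfa
    rw [this]
    unfold app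
    fun_prop
  have h2 : ∫⁻ x, h x ∂(Measure.map f volume) = ∫⁻ x, h (f x) := lintegral_map hh hfm
  rw [h1, lintegral_smul_measure, smul_eq_mul, hfd] at h2
  rw [h2]
  simp only [hfa]

/-! ### Measurability -/

lemma ext_meas {f : ℝ × ℝ → ℂ} (hf : Measurable f) :
    Measurable fun z : Mat × (ℝ × ℝ × ℝ) => ext (image z.1 f) z.2 := by
  unfold ext image app
  have h1 : StronglyMeasurable (fun z : (Mat × (ℝ × ℝ × ℝ)) × (ℝ × ℝ) =>
      cexp (-I * ((z.2.1 * z.1.2.1 + z.2.2 * z.1.2.2.1 +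
        (z.2.1 ^ 2 + z.2.2 ^ 2) * z.1.2.2.2 : ℝ) : ℂ)) *
      f (z.1.1.1.1 * z.2.1 + z.1.1.1.2 * z.2.2, z.1.1.2.1 * z.2.1 + z.1.1.2.2 * z.2.2)) := by
    apply Measurable.stronglyMeasurable
    exact (by fun_prop : Measurable fun z : (Mat × (ℝ × ℝ × ℝ)) × (ℝ × ℝ) =>
      cexp (-I * ((z.2.1 * z.1.2.1 + z.2.2 * z.1.2.2.1 +
        (z.2.1 ^ 2 + z.2.2 ^ 2) * z.1.2.2.2 : ℝ) : ℂ))).mul (hf.comp (by fun_prop))
  exact (h1.integral_prod_right' (ν := volume)).measurable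

lemma wt_meas (γ : ℝ) : Measurable fun t : ℝ => ENNReal.ofReal ((1 + |t|) ^ γ) :=
  ((measurable_norm.const_add 1).pow_const γ).ennreal_ofReal

lemma NN_meas {f : ℝ × ℝ → ℂ} (hf : Measurable f) (γ q : ℝ) :
    Measurable fun A : Mat => NN γ q (image A f) := by
  unfold NN
  have h1 : Measurable fun z : Mat × (ℝ × ℝ × ℝ) => ENNReal.ofReal ((1 + |z.2.2.2|) ^ γ) *
      ‖ext (image z.1 f) z.2‖ₑ ^ q :=
    ((wt_meas γ).comp (by fun_prop)).mul ((ext_meas hf).enorm.pow_const q)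
  exact h1.lintegral_prod_right'

lemma ext_meas1 {f : ℝ × ℝ → ℂ} (hf : Measurable f) : Measurable (ext f) := by
  have h := (ext_meas hf).comp (measurable_const (a := (((1, 0), (0, 1)) : Mat)) |>.prodMk
      (measurable_id (α := ℝ × ℝ × ℝ)))
  have e : (fun ξ : ℝ × ℝ × ℝ => ext (image (((1, 0), (0, 1)) : Mat) f) ξ) = ext f := by
    have : image (((1, 0), (0, 1)) : Mat) f = f := by
      funext x
      simp [image, app]
    rw [this]
  rw [← e]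
  exact h

/-! ### Averages over dilates -/

theorem base (γ p q : ℝ) (hγ0 : 0 ≤ γ) (hγ1 : γ < 1) (hp1 : 1 ≤ p) (hp : p < 2 / (1 + γ))
    (hq : 3 + γ < q) : ∃ K : ℝ≥0∞, K ≠ ⊤ ∧ ∀ g : ℝ × ℝ → ℂ, Measurable g →
      (∀ x, 1 < |x.1| ∨ 1 < |x.2| → g x = 0) →
      ∫⁻ l in Icc (1 : ℝ) 2, (NN γ q (PE.dil l g)) ^ p ≤ K * (∫⁻ x, ‖g x‖ₑ ^ q) ^ p := by
  have hp0 : 0 < p := by linarith
  obtain ⟨K, hK⟩ := Pool.Agent.Results.MP_b7167f_an.DilateMoments.result 1 γ p q 1 2 zero_le_one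
    le_rfl hγ0 hγ1 hp1 (by rw [one_add_one_eq_two]; exact hp) (by
      rw [one_add_one_eq_two]
      linarith) (by norm_num)
  set c : ℝ≥0∞ := ENNReal.ofReal (2 * Real.pi) * (ENNReal.ofReal (2 * Real.pi) *
    ENNReal.ofReal (2 * Real.pi)) * ENNReal.ofReal ((2 * Real.pi) ^ γ) with hc
  have hct : c ≠ ⊤ := by
    rw [hc]
    finiteness
  refine ⟨c ^ p * K, ENNReal.mul_ne_top (ENNReal.rpow_ne_top_of_nonneg hp0.le hct)
    ENNReal.coe_ne_top, fun g hg hs => ?_⟩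
  have hind : Pool.Agent.Results.MP_b7167f_an.DilateMoments.Q.indicator g = g := by
    funext x
    by_cases hx : x ∈ Pool.Agent.Results.MP_b7167f_an.DilateMoments.Q
    · rw [indicator_of_mem hx]
    · rw [indicator_of_notMem hx]
      symm
      apply hs
      by_contra hcon
      push Not at hcon
      exact hx ⟨abs_le.1 hcon.1, abs_le.1 hcon.2⟩
  have hpi : 0 < 2 * Real.pi := Real.two_pi_pos
  have h1pi : 1 ≤ 2 * Real.pi := by
    have := Real.pi_gt_three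
    linarith
  have hpt : ∀ l ∈ Icc (1 : ℝ) 2, NN γ q (PE.dil l g) ≤
      c * ∫⁻ x : ℝ × ℝ × ℝ, ENNReal.ofReal ((1 + |x.2.2|) ^ γ) *
        ‖Pool.Agent.Results.MP_b7167f_an.DilateMoments.ext
          (Pool.Agent.Results.MP_b7167f_an.DilateMoments.dilate l g) x‖ₑ ^ q := by
    intro l hl
    set H : ℝ × ℝ × ℝ → ℝ≥0∞ := fun ξ => ENNReal.ofReal ((1 + |ξ.2.2|) ^ γ) *
      ‖ext (PE.dil l g) ξ‖ₑ ^ q with hH
    have hdm : Measurable (PE.dil l g) := by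
      unfold PE.dil
      exact hg.comp (by fun_prop)
    have hHm : Measurable H :=
      ((wt_meas γ).comp (by fun_prop)).mul ((ext_meas1 hdm).enorm.pow_const q)
    have h1 := sc3 H hHm (-(2 * Real.pi)) (-(2 * Real.pi)) (-(2 * Real.pi)) (by linarith)
      (by linarith) (by linarith)
    have h2 : |(-(2 * Real.pi))⁻¹| = (2 * Real.pi)⁻¹ := by
      rw [abs_inv, abs_neg, abs_of_pos hpi]
    rw [h2] at h1
    have h3 : ENNReal.ofReal (2 * Real.pi) * ENNReal.ofReal (2 * Real.pi)⁻¹ = 1 := by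
      rw [← ENNReal.ofReal_mul hpi.le, mul_inv_cancel₀ hpi.ne', ENNReal.ofReal_one]
    have h4 : ∫⁻ x, H x = ENNReal.ofReal (2 * Real.pi) * (ENNReal.ofReal (2 * Real.pi) *
        (ENNReal.ofReal (2 * Real.pi) * ∫⁻ x : ℝ × ℝ × ℝ,
          H (-(2 * Real.pi) * x.1, -(2 * Real.pi) * x.2.1, -(2 * Real.pi) * x.2.2))) := by
      rw [h1]
      calc ∫⁻ x, H x = (ENNReal.ofReal (2 * Real.pi) * ENNReal.ofReal (2 * Real.pi)⁻¹) *
            ((ENNReal.ofReal (2 * Real.pi) * ENNReal.ofReal (2 * Real.pi)⁻¹) *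
            ((ENNReal.ofReal (2 * Real.pi) * ENNReal.ofReal (2 * Real.pi)⁻¹) * ∫⁻ x, H x)) := by
              rw [h3, one_mul, one_mul, one_mul]
        _ = _ := by ring
    have h5 : ∀ x : ℝ × ℝ × ℝ, H (-(2 * Real.pi) * x.1, -(2 * Real.pi) * x.2.1,
        -(2 * Real.pi) * x.2.2) ≤ ENNReal.ofReal ((2 * Real.pi) ^ γ) *
        (ENNReal.ofReal ((1 + |x.2.2|) ^ γ) *
        ‖Pool.Agent.Results.MP_b7167f_an.DilateMoments.ext
          (Pool.Agent.Results.MP_b7167f_an.DilateMoments.dilate l g) x‖ₑ ^ q) := by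
      intro x
      rw [Pool.Agent.Results.MP_b7167f_an.DilateMoments.ext_eq g l hl.1 x, hind]
      have e1 : ((-(2 * Real.pi)) • x : ℝ × ℝ × ℝ) = (-(2 * Real.pi) * x.1,
          -(2 * Real.pi) * x.2.1, -(2 * Real.pi) * x.2.2) := rfl
      rw [e1, hH]
      simp only
      rw [ext_PE, ← mul_assoc, ← ENNReal.ofReal_mul (by positivity)]
      refine mul_le_mul' (ENNReal.ofReal_le_ofReal ?_) le_rfl
      rw [← Real.mul_rpow (by positivity) (by positivity)]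
      refine Real.rpow_le_rpow (by positivity) ?_ hγ0
      rw [abs_mul, abs_neg, abs_of_pos hpi]
      nlinarith [abs_nonneg x.2.2]
    have h6 : NN γ q (PE.dil l g) = ∫⁻ x, H x := rfl
    rw [h6, h4]
    calc _ ≤ ENNReal.ofReal (2 * Real.pi) * (ENNReal.ofReal (2 * Real.pi) *
        (ENNReal.ofReal (2 * Real.pi) * ∫⁻ x : ℝ × ℝ × ℝ, ENNReal.ofReal ((2 * Real.pi) ^ γ) *
        (ENNReal.ofReal ((1 + |x.2.2|) ^ γ) *
        ‖Pool.Agent.Results.MP_b7167f_an.DilateMoments.ext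
          (Pool.Agent.Results.MP_b7167f_an.DilateMoments.dilate l g) x‖ₑ ^ q))) := by
          gcongr with x
          exact h5 x
      _ = _ := by
          rw [lintegral_const_mul' _ _ ENNReal.ofReal_ne_top, hc]
          ring
  have hbd : ∀ a r : ℝ, 0 < r → (volume : Measure ℝ) (Icc a (a + r)) ≤
      ENNReal.ofReal (1 * r ^ (1 : ℝ)) := by
    intro a r hr
    rw [Real.volume_Icc, Real.rpow_one, one_mul]
    apply ENNReal.ofReal_le_ofReal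
    linarith
  calc ∫⁻ l in Icc (1 : ℝ) 2, (NN γ q (PE.dil l g)) ^ p
      ≤ ∫⁻ l in Icc (1 : ℝ) 2, c ^ p * (∫⁻ x : ℝ × ℝ × ℝ, ENNReal.ofReal ((1 + |x.2.2|) ^ γ) *
        ‖Pool.Agent.Results.MP_b7167f_an.DilateMoments.ext
          (Pool.Agent.Results.MP_b7167f_an.DilateMoments.dilate l g) x‖ₑ ^ q) ^ p := by
        refine setLIntegral_mono' measurableSet_Icc fun l hl => ?_
        rw [← ENNReal.mul_rpow_of_nonneg _ _ hp0.le]
        exact ENNReal.rpow_le_rpow (hpt l hl) hp0.le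
    _ = c ^ p * ∫⁻ l in Icc (1 : ℝ) 2, (∫⁻ x : ℝ × ℝ × ℝ, ENNReal.ofReal ((1 + |x.2.2|) ^ γ) *
        ‖Pool.Agent.Results.MP_b7167f_an.DilateMoments.ext
          (Pool.Agent.Results.MP_b7167f_an.DilateMoments.dilate l g) x‖ₑ ^ q) ^ p :=
        lintegral_const_mul' _ _ (ENNReal.rpow_ne_top_of_nonneg hp0.le hct)
    _ ≤ c ^ p * (K * (∫⁻ ξ in Pool.Agent.Results.MP_b7167f_an.DilateMoments.Q, ‖g ξ‖ₑ ^ q) ^ p) :=
        mul_le_mul' le_rfl (hK volume hbd g hg)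
    _ ≤ c ^ p * K * (∫⁻ x, ‖g x‖ₑ ^ q) ^ p := by
        rw [mul_assoc]
        gcongr
        exact Measure.restrict_le_self

lemma NN_scale {h : ℝ × ℝ → ℂ} (hh : Measurable h) {γ q : ℝ} (hγ : 0 ≤ γ) (hq : 0 ≤ q) {R : ℝ}
    (hR : 1 ≤ R) : NN γ q h ≤
      ENNReal.ofReal (R ^ 2) ^ q * NN γ q (fun x => h (R * x.1, R * x.2)) := by
  haveI := haar2
  have hR0 : 0 < R := by linarith
  have hR2 : 0 < R ^ 2 := by positivity
  set k : ℝ × ℝ → ℂ := fun x => h (R * x.1, R * x.2) with hk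
  have hkm : Measurable k := hh.comp (by fun_prop)
  have e : ∀ ζ : ℝ × ℝ × ℝ, ext h ζ = (R ^ 2 : ℝ) * ext k (R * ζ.1, R * ζ.2.1, R ^ 2 * ζ.2.2) := by
    intro ζ
    set Φ : ℝ × ℝ → ℂ := fun x =>
      cexp (-I * ((x.1 * ζ.1 + x.2 * ζ.2.1 + (x.1 ^ 2 + x.2 ^ 2) * ζ.2.2 : ℝ) : ℂ)) * h x with hΦ
    have h1 := Measure.integral_comp_smul (volume : Measure (ℝ × ℝ)) Φ R
    have h2 : ∫ x : ℝ × ℝ, Φ (R • x) = ext k (R * ζ.1, R * ζ.2.1, R ^ 2 * ζ.2.2) := by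
      unfold ext
      refine integral_congr_ae (ae_of_all _ fun x => ?_)
      simp only [hΦ, hk, Prod.smul_fst, Prod.smul_snd, smul_eq_mul]
      have e1 : (R • x : ℝ × ℝ) = (R * x.1, R * x.2) := rfl
      rw [e1]
      congr 3
      push_cast
      ring
    have h3 : Module.finrank ℝ (ℝ × ℝ) = 2 := by simp
    rw [h2, h3, abs_of_pos (by positivity)] at h1
    rw [h1, Complex.real_smul]
    have h4 : ((R ^ 2 : ℝ) : ℂ) * (((R ^ 2)⁻¹ : ℝ) : ℂ) = 1 := by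
      rw [← Complex.ofReal_mul, mul_inv_cancel₀ hR2.ne', Complex.ofReal_one]
    rw [← mul_assoc, h4, one_mul]
    rfl
  set H : ℝ × ℝ × ℝ → ℝ≥0∞ := fun ξ => ENNReal.ofReal ((1 + |ξ.2.2|) ^ γ) * ‖ext k ξ‖ₑ ^ q with hH
  have hHm : Measurable H := ((wt_meas γ).comp (by fun_prop)).mul ((ext_meas1 hkm).enorm.pow_const q)
  have h5 : NN γ q h ≤ ENNReal.ofReal (R ^ 2) ^ q * ∫⁻ x : ℝ × ℝ × ℝ,
      H (R * x.1, R * x.2.1, R ^ 2 * x.2.2) := by
    unfold NN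
    rw [← lintegral_const_mul' _ _ (ENNReal.rpow_ne_top_of_nonneg hq ENNReal.ofReal_ne_top)]
    refine lintegral_mono fun x => ?_
    simp only [hH]
    have e2 : ‖((R ^ 2 : ℝ) : ℂ)‖ₑ = ENNReal.ofReal (R ^ 2) := by
      rw [← ofReal_norm, Complex.norm_real, Real.norm_of_nonneg hR2.le]
    rw [e x, enorm_mul, e2, ENNReal.mul_rpow_of_nonneg _ _ hq, mul_left_comm]
    refine mul_le_mul' le_rfl (mul_le_mul' (ENNReal.ofReal_le_ofReal ?_) le_rfl)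
    refine Real.rpow_le_rpow (by positivity) ?_ hγ
    rw [abs_mul, abs_of_pos hR2]
    have h6 : 1 ≤ R ^ 2 := by nlinarith
    nlinarith [abs_nonneg x.2.2]
  refine h5.trans (mul_le_mul' le_rfl ?_)
  rw [sc3 H hHm R R (R ^ 2) hR0.ne' hR0.ne' hR2.ne']
  have h7 : ENNReal.ofReal |R⁻¹| ≤ 1 := by
    rw [ENNReal.ofReal_le_one, abs_of_pos (by positivity)]
    exact inv_le_one_of_one_le₀ hR
  have h8 : ENNReal.ofReal |(R ^ 2)⁻¹| ≤ 1 := by
    rw [ENNReal.ofReal_le_one, abs_of_pos (by positivity)]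
    exact inv_le_one_of_one_le₀ (by nlinarith)
  calc _ ≤ 1 * (1 * (1 * ∫⁻ x, H x)) := by gcongr
    _ = _ := by
      rw [one_mul, one_mul, one_mul]
      rfl

theorem scaled (γ p q : ℝ) (hγ0 : 0 ≤ γ) (hγ1 : γ < 1) (hp1 : 1 ≤ p) (hp : p < 2 / (1 + γ))
    (hq : 3 + γ < q) (R : ℝ) (hR : 1 ≤ R) : ∃ K : ℝ≥0∞, K ≠ ⊤ ∧ ∀ g : ℝ × ℝ → ℂ, Measurable g →
      (∀ x, R < |x.1| ∨ R < |x.2| → g x = 0) →
      ∫⁻ l in Icc (1 : ℝ) 2, (NN γ q (PE.dil l g)) ^ p ≤ K * (∫⁻ x, ‖g x‖ₑ ^ q) ^ p := by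
  have hp0 : 0 < p := by linarith
  have hq0 : 0 < q := by linarith
  have hR0 : 0 < R := by linarith
  obtain ⟨K, hKt, hK⟩ := base γ p q hγ0 hγ1 hp1 hp hq
  have hct : (ENNReal.ofReal (R ^ 2) ^ q) ^ p ≠ ⊤ := ENNReal.rpow_ne_top_of_nonneg hp0.le
    (ENNReal.rpow_ne_top_of_nonneg hq0.le ENNReal.ofReal_ne_top)
  refine ⟨(ENNReal.ofReal (R ^ 2) ^ q) ^ p * K, ENNReal.mul_ne_top hct hKt, fun g hg hs => ?_⟩
  set k : ℝ × ℝ → ℂ := fun x => g (R * x.1, R * x.2) with hk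
  have hkm : Measurable k := hg.comp (by fun_prop)
  have hks : ∀ x : ℝ × ℝ, 1 < |x.1| ∨ 1 < |x.2| → k x = 0 := by
    intro x hx
    apply hs
    simp only [abs_mul, abs_of_pos hR0]
    rcases hx with hx | hx
    · left
      nlinarith
    · right
      nlinarith
  have h1 := hK k hkm hks
  have h2 : ∀ l : ℝ, NN γ q (PE.dil l g) ≤ ENNReal.ofReal (R ^ 2) ^ q * NN γ q (PE.dil l k) := by
    intro l
    have hm : Measurable (PE.dil l g) := by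
      unfold PE.dil
      exact hg.comp (by fun_prop)
    have h3 := NN_scale hm hγ0 hq0.le hR
    have e : (fun x : ℝ × ℝ => PE.dil l g (R * x.1, R * x.2)) = PE.dil l k := by
      funext x
      unfold PE.dil
      simp only [hk]
      congr 2
      ring
    rwa [e] at h3
  have h4 : ∫⁻ x, ‖k x‖ₑ ^ q ≤ ∫⁻ x, ‖g x‖ₑ ^ q := by
    have h5 := sc2 (fun x => ‖g x‖ₑ ^ q) (hg.enorm.pow_const q) R R hR0.ne' hR0.ne'
    have h7 : ENNReal.ofReal |R⁻¹| ≤ 1 := by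
      rw [ENNReal.ofReal_le_one, abs_of_pos (by positivity)]
      exact inv_le_one_of_one_le₀ hR
    calc ∫⁻ x, ‖k x‖ₑ ^ q = ENNReal.ofReal |R⁻¹| * (ENNReal.ofReal |R⁻¹| * ∫⁻ x, ‖g x‖ₑ ^ q) := h5
      _ ≤ 1 * (1 * ∫⁻ x, ‖g x‖ₑ ^ q) := by gcongr
      _ = _ := by rw [one_mul, one_mul]
  calc ∫⁻ l in Icc (1 : ℝ) 2, (NN γ q (PE.dil l g)) ^ p
      ≤ ∫⁻ l in Icc (1 : ℝ) 2, (ENNReal.ofReal (R ^ 2) ^ q) ^ p * (NN γ q (PE.dil l k)) ^ p := by
        refine lintegral_mono fun l => ?_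
        simp only
        rw [← ENNReal.mul_rpow_of_nonneg _ _ hp0.le]
        exact ENNReal.rpow_le_rpow (h2 l) hp0.le
    _ = (ENNReal.ofReal (R ^ 2) ^ q) ^ p * ∫⁻ l in Icc (1 : ℝ) 2, (NN γ q (PE.dil l k)) ^ p :=
        lintegral_const_mul' _ _ hct
    _ ≤ (ENNReal.ofReal (R ^ 2) ^ q) ^ p * (K * (∫⁻ x, ‖k x‖ₑ ^ q) ^ p) :=
        mul_le_mul' le_rfl h1
    _ ≤ (ENNReal.ofReal (R ^ 2) ^ q) ^ p * (K * (∫⁻ x, ‖g x‖ₑ ^ q) ^ p) := by gcongr
    _ = _ := by ring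

/-! ### Averages over matrices -/

lemma T_image (l : ℝ) (B : Mat) (f : ℝ × ℝ → ℂ) : image (T l B) f = PE.dil l (image B f) := by
  funext x
  unfold image PE.dil app T
  simp only
  congr 2 <;> ring

lemma det_T (l : ℝ) (B : Mat) : det (T l B) = l * det B := by
  unfold det T
  ring

lemma Comp_T {m l : ℝ} (hm : 1 ≤ m) (hl : l ∈ Icc (1 : ℝ) 2) {B : Mat} (h : T l B ∈ Comp m) :
    B ∈ Comp (2 * m) := by
  obtain ⟨h1, h2, h3, h4, h5⟩ := h
  have hl0 : 0 < l := by linarith [hl.1]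
  have hl1 := hl.1
  have hl2 := hl.2
  rw [det_T] at h5
  unfold T at h1 h2 h3 h4
  simp only at h1 h2 h3 h4
  rw [abs_mul, abs_of_pos hl0] at h2 h4 h5
  refine ⟨by linarith, ?_, by linarith, ?_, ?_⟩
  · nlinarith [abs_nonneg B.1.2]
  · nlinarith [abs_nonneg B.2.2]
  · have h6 : 1 / m ≤ 2 * |det B| := by nlinarith [abs_nonneg (det B)]
    rw [div_le_iff₀ (by linarith)] at h6 ⊢
    nlinarith

lemma Comp_meas (m : ℝ) : MeasurableSet (Comp m) := by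
  have c1 : IsClosed {A : Mat | |A.1.1| ≤ m} := isClosed_le (by fun_prop) continuous_const
  have c2 : IsClosed {A : Mat | |A.1.2| ≤ m} := isClosed_le (by fun_prop) continuous_const
  have c3 : IsClosed {A : Mat | |A.2.1| ≤ m} := isClosed_le (by fun_prop) continuous_const
  have c4 : IsClosed {A : Mat | |A.2.2| ≤ m} := isClosed_le (by fun_prop) continuous_const
  have c5 : IsClosed {A : Mat | 1 / m ≤ |det A|} := by
    unfold det
    exact isClosed_le continuous_const (by fun_prop)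
  exact (c1.inter (c2.inter (c3.inter (c4.inter c5)))).measurableSet

lemma Comp_finite (m : ℝ) : volume (Comp m) ≠ ⊤ := by
  have h1 : Comp m ⊆ (Icc (-m) m ×ˢ Icc (-m) m) ×ˢ (Icc (-m) m ×ˢ Icc (-m) m) := by
    rintro A ⟨h1, h2, h3, h4, -⟩
    exact ⟨⟨abs_le.1 h1, abs_le.1 h2⟩, ⟨abs_le.1 h3, abs_le.1 h4⟩⟩
  refine ne_top_of_le_ne_top ?_ (measure_mono h1)
  have h2 : IsCompact ((Icc (-m) m ×ˢ Icc (-m) m) ×ˢ (Icc (-m) m ×ˢ Icc (-m) m) : Set Mat) :=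
    (isCompact_Icc.prod isCompact_Icc).prod (isCompact_Icc.prod isCompact_Icc)
  exact h2.measure_lt_top.ne

lemma supp_image {m R : ℝ} (hm : 1 ≤ m) (hR : 0 ≤ R) {B : Mat} (hB : B ∈ Comp m) {x : ℝ × ℝ}
    (hx : 2 * m ^ 2 * R < |x.1| ∨ 2 * m ^ 2 * R < |x.2|) :
    R < |(app B x).1| ∨ R < |(app B x).2| := by
  obtain ⟨h1, h2, h3, h4, h5⟩ := hB
  by_contra hcon
  push Not at hcon
  obtain ⟨g1, g2⟩ := hcon
  set y := app B x with hy
  have hm0 : 0 < m := by linarith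
  have e1 : det B * x.1 = B.2.2 * y.1 - B.1.2 * y.2 := by
    rw [hy]
    unfold det app
    ring
  have e2 : det B * x.2 = B.1.1 * y.2 - B.2.1 * y.1 := by
    rw [hy]
    unfold det app
    ring
  have k1 : |det B| * |x.1| ≤ 2 * m * R := by
    rw [← abs_mul, e1]
    refine (abs_sub _ _).trans ?_
    rw [abs_mul, abs_mul]
    have a1 : |B.2.2| * |y.1| ≤ m * R := by gcongr
    have a2 : |B.1.2| * |y.2| ≤ m * R := by gcongr
    linarith
  have k2 : |det B| * |x.2| ≤ 2 * m * R := by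
    rw [← abs_mul, e2]
    refine (abs_sub _ _).trans ?_
    rw [abs_mul, abs_mul]
    have a1 : |B.1.1| * |y.2| ≤ m * R := by gcongr
    have a2 : |B.2.1| * |y.1| ≤ m * R := by gcongr
    linarith
  have k3 : ∀ t : ℝ, 0 ≤ t → |det B| * t ≤ 2 * m * R → t ≤ 2 * m ^ 2 * R := by
    intro t ht h6
    have h7 : 1 / m * t ≤ 2 * m * R := (mul_le_mul_of_nonneg_right h5 ht).trans h6
    rw [one_div_mul_eq_div, div_le_iff₀ hm0] at h7
    linarith
  rcases hx with hx | hx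
  · exact absurd (k3 _ (abs_nonneg _) k1) (not_le.2 hx)
  · exact absurd (k3 _ (abs_nonneg _) k2) (not_le.2 hx)

theorem moments (γ p q : ℝ) (hγ0 : 0 ≤ γ) (hγ1 : γ < 1) (hp1 : 1 ≤ p) (hp : p < 2 / (1 + γ))
    (hq : 3 + γ < q) (m R : ℝ) (hm : 1 ≤ m) (hR : 0 ≤ R) :
    ∃ K : ℝ≥0, ∀ f : ℝ × ℝ → ℂ, Measurable f → (∀ x, R < |x.1| ∨ R < |x.2| → f x = 0) →
      ∫⁻ A in Comp m, (NN γ q (image A f)) ^ p ≤ K * (∫⁻ x, ‖f x‖ₑ ^ q) ^ p := by
  have hp0 : 0 < p := by linarith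
  have hq0 : 0 < q := by linarith
  set R' : ℝ := max 1 (2 * (2 * m) ^ 2 * R) with hR'
  obtain ⟨K, hKt, hK⟩ := scaled γ p q hγ0 hγ1 hp1 hp hq R' (le_max_left _ _)
  set C : ℝ≥0∞ := 4 * (volume (Comp (2 * m)) * (K * ENNReal.ofReal (2 * m) ^ p)) with hC
  have hCt : C ≠ ⊤ := by
    rw [hC]
    refine ENNReal.mul_ne_top (by norm_num) (ENNReal.mul_ne_top (Comp_finite _)
      (ENNReal.mul_ne_top hKt (ENNReal.rpow_ne_top_of_nonneg hp0.le ENNReal.ofReal_ne_top)))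
  refine ⟨C.toNNReal, fun f hf hs => ?_⟩
  rw [ENNReal.coe_toNNReal hCt]
  set G : Mat → ℝ≥0∞ := fun A => (NN γ q (image A f)) ^ p with hG
  have hGm : Measurable G := (NN_meas hf γ q).pow_const p
  set J : ℝ≥0∞ := ∫⁻ A in Comp m, G A with hJ
  have hTm : Measurable fun z : ℝ × Mat => T z.1 z.2 := by
    unfold T
    fun_prop
  have hJl : ∀ l ∈ Icc (1 : ℝ) 2, J ≤ 4 * ∫⁻ B in Comp (2 * m), G (T l B) := by
    intro l hl
    have hl0 : 0 < l := by linarith [hl.1]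
    have h1 := sc4 ((Comp m).indicator G) (hGm.indicator (Comp_meas m)) l hl0.ne'
    have h2 : ENNReal.ofReal l * ENNReal.ofReal |l⁻¹| = 1 := by
      rw [abs_of_pos (by positivity), ← ENNReal.ofReal_mul hl0.le, mul_inv_cancel₀ hl0.ne',
        ENNReal.ofReal_one]
    have h3 : J = ∫⁻ A, (Comp m).indicator G A := by
      rw [hJ, lintegral_indicator (Comp_meas m)]
    have h4 : J = ENNReal.ofReal l * (ENNReal.ofReal l * ∫⁻ B, (Comp m).indicator G (T l B)) := by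
      rw [h1, h3]
      calc ∫⁻ A, (Comp m).indicator G A = (ENNReal.ofReal l * ENNReal.ofReal |l⁻¹|) *
            ((ENNReal.ofReal l * ENNReal.ofReal |l⁻¹|) * ∫⁻ A, (Comp m).indicator G A) := by
              rw [h2, one_mul, one_mul]
        _ = _ := by ring
    have h5 : ENNReal.ofReal l ≤ 2 := by
      have : (2 : ℝ≥0∞) = ENNReal.ofReal 2 := by norm_num
      rw [this]
      exact ENNReal.ofReal_le_ofReal hl.2
    have h6 : ∫⁻ B, (Comp m).indicator G (T l B) ≤ ∫⁻ B in Comp (2 * m), G (T l B) := by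
      rw [← lintegral_indicator (Comp_meas (2 * m))]
      refine lintegral_mono fun B => ?_
      by_cases hB : T l B ∈ Comp m
      · rw [indicator_of_mem hB, indicator_of_mem (Comp_T hm hl hB)]
      · rw [indicator_of_notMem hB]
        exact zero_le
    rw [h4]
    calc _ ≤ 2 * (2 * ∫⁻ B in Comp (2 * m), G (T l B)) := by gcongr
      _ = _ := by
        rw [← mul_assoc]
        norm_num
  have hint : ∀ B ∈ Comp (2 * m), ∫⁻ l in Icc (1 : ℝ) 2, G (T l B) ≤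
      K * ENNReal.ofReal (2 * m) ^ p * (∫⁻ x, ‖f x‖ₑ ^ q) ^ p := by
    intro B hB
    have h1 := hK (image B f) (hf.comp (by unfold app; fun_prop)) (fun x hx => by
      apply hs
      apply supp_image (by linarith) hR hB
      rcases hx with hx | hx
      · exact Or.inl ((le_max_right _ _).trans_lt hx)
      · exact Or.inr ((le_max_right _ _).trans_lt hx))
    have h2 : ∀ l, G (T l B) = (NN γ q (PE.dil l (image B f))) ^ p := by
      intro l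
      rw [hG]
      simp only
      rw [T_image]
    simp only [h2]
    refine h1.trans ?_
    rw [mul_assoc]
    refine mul_le_mul' le_rfl ?_
    rw [← ENNReal.mul_rpow_of_nonneg _ _ hp0.le]
    refine ENNReal.rpow_le_rpow ?_ hp0.le
    have hd0 : 0 < |det B| := by
      have := hB.2.2.2.2
      have h3 : 0 < 1 / (2 * m) := by positivity
      linarith
    have h4 := sc_app (fun x => ‖f x‖ₑ ^ q) (hf.enorm.pow_const q) B (abs_pos.1 hd0)
    have h5 : ∫⁻ x, ‖image B f x‖ₑ ^ q = ENNReal.ofReal |(det B)⁻¹| * ∫⁻ x, ‖f x‖ₑ ^ q := h4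
    rw [h5]
    refine mul_le_mul' (ENNReal.ofReal_le_ofReal ?_) le_rfl
    rw [abs_inv]
    have h6 := hB.2.2.2.2
    rw [one_div] at h6
    exact inv_le_of_inv_le₀ (by positivity) h6
  have hvol : volume (Icc (1 : ℝ) 2) = 1 := by
    rw [Real.volume_Icc]
    norm_num
  have hJe : J = ∫⁻ l in Icc (1 : ℝ) 2, J := by
    rw [setLIntegral_const, hvol, mul_one]
  have hjm : Measurable fun z : ℝ × Mat => G (T z.1 z.2) := hGm.comp hTm
  calc J = ∫⁻ l in Icc (1 : ℝ) 2, J := hJe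
    _ ≤ ∫⁻ l in Icc (1 : ℝ) 2, 4 * ∫⁻ B in Comp (2 * m), G (T l B) :=
        setLIntegral_mono' measurableSet_Icc hJl
    _ = 4 * ∫⁻ l in Icc (1 : ℝ) 2, ∫⁻ B in Comp (2 * m), G (T l B) :=
        lintegral_const_mul' _ _ (by norm_num)
    _ = 4 * ∫⁻ B in Comp (2 * m), ∫⁻ l in Icc (1 : ℝ) 2, G (T l B) := by
        rw [lintegral_lintegral_swap hjm.aemeasurable]
    _ ≤ 4 * ∫⁻ B in Comp (2 * m), K * ENNReal.ofReal (2 * m) ^ p * (∫⁻ x, ‖f x‖ₑ ^ q) ^ p := by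
        gcongr 4 * ?_
        exact setLIntegral_mono' (Comp_meas _) hint
    _ = C * (∫⁻ x, ‖f x‖ₑ ^ q) ^ p := by
        rw [setLIntegral_const, hC]
        ring

/-- **Theorem.** Let `0 ≤ γ < 1`, `q > 3 + γ` and `1 ≤ p < 2 / (1 + γ)` (for `γ = 0`: `q > 3` and
`1 ≤ p < 2`).

(1) For all `m ≥ 1` and `R ≥ 0` there is `K` such that for all measurable `f` supported in
`[-R, R]²`

  `∫ (∫ (1 + |ξ₃|)^γ |ℰ f_A(ξ)|^q dξ)^p dA ≤ K (∫ |f|^q)^p`,

where `A` runs through the matrices with entries at most `m` in absolute value and `|det A| ≥ 1/m`.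

(2) For every measurable `f` with bounded support and `∫ |f|^q < ∞`,
`∫ (1 + |ξ₃|)^γ |ℰ f_A(ξ)|^q dξ` is finite for almost every invertible matrix `A`. -/
theorem result (γ p q : ℝ) (hγ0 : 0 ≤ γ) (hγ1 : γ < 1) (hp1 : 1 ≤ p) (hp : p < 2 / (1 + γ))
    (hq : 3 + γ < q) :
    (∀ m R : ℝ, 1 ≤ m → 0 ≤ R → ∃ K : ℝ≥0, ∀ f : ℝ × ℝ → ℂ, Measurable f →
      (∀ x, R < |x.1| ∨ R < |x.2| → f x = 0) →
      ∫⁻ A in Comp m, (∫⁻ ξ : ℝ × ℝ × ℝ, ENNReal.ofReal ((1 + |ξ.2.2|) ^ γ) *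
        ‖ext (image A f) ξ‖ₑ ^ q) ^ p ≤ K * (∫⁻ x, ‖f x‖ₑ ^ q) ^ p) ∧
    ∀ f : ℝ × ℝ → ℂ, Measurable f → (∃ R : ℝ, ∀ x, R < |x.1| ∨ R < |x.2| → f x = 0) →
      ∫⁻ x, ‖f x‖ₑ ^ q ≠ ⊤ → ∀ᵐ A : Mat, det A ≠ 0 →
        ∫⁻ ξ : ℝ × ℝ × ℝ, ENNReal.ofReal ((1 + |ξ.2.2|) ^ γ) *
          ‖ext (image A f) ξ‖ₑ ^ q < ⊤ := by
  refine ⟨fun m R hm hR => moments γ p q hγ0 hγ1 hp1 hp hq m R hm hR, ?_⟩
  rintro f hf ⟨R, hs⟩ hfin
  have hp0 : 0 < p := by linarith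
  have key : ∀ n : ℕ, ∀ᵐ A : Mat, A ∈ Comp (n + 1) → NN γ q (image A f) < ⊤ := by
    intro n
    obtain ⟨K, hK⟩ := moments γ p q hγ0 hγ1 hp1 hp hq (n + 1) (max R 0)
      (by linarith [(Nat.cast_nonneg n : (0 : ℝ) ≤ n)]) (le_max_right _ _)
    have h1 := hK f hf (fun x hx => hs x (by
      rcases hx with hx | hx
      · exact Or.inl ((le_max_left _ _).trans_lt hx)
      · exact Or.inr ((le_max_left _ _).trans_lt hx)))
    have h2 : ∫⁻ A in Comp (n + 1), (NN γ q (image A f)) ^ p ≠ ⊤ :=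
      ne_top_of_le_ne_top (ENNReal.mul_ne_top ENNReal.coe_ne_top
        (ENNReal.rpow_ne_top_of_nonneg hp0.le hfin)) h1
    have h3 := ae_lt_top ((NN_meas hf γ q).pow_const p) h2
    rw [ae_restrict_iff' (Comp_meas _)] at h3
    filter_upwards [h3] with A hA hAm
    have h4 := hA hAm
    by_contra h5
    rw [not_lt, top_le_iff] at h5
    rw [h5, ENNReal.top_rpow_of_pos hp0] at h4
    exact lt_irrefl _ h4
  have hall := ae_all_iff.2 key
  filter_upwards [hall] with A hA hdet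
  obtain ⟨n, hn⟩ := exists_nat_gt (max (max |A.1.1| |A.1.2|) (max (max |A.2.1| |A.2.2|)
    (1 / |det A|)))
  have h1 : max |A.1.1| |A.1.2| < n := (le_max_left _ _).trans_lt hn
  have h2 : max (max |A.2.1| |A.2.2|) (1 / |det A|) < n := (le_max_right _ _).trans_lt hn
  have h3 : max |A.2.1| |A.2.2| < n := (le_max_left _ _).trans_lt h2
  have h4 : 1 / |det A| < n := (le_max_right _ _).trans_lt h2
  refine hA n ⟨?_, ?_, ?_, ?_, ?_⟩
  · linarith [(le_max_left _ _).trans_lt h1]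
  · linarith [(le_max_right _ _).trans_lt h1]
  · linarith [(le_max_left _ _).trans_lt h3]
  · linarith [(le_max_right _ _).trans_lt h3]
  · have h5 : 0 < |det A| := abs_pos.2 hdet
    rw [div_lt_iff₀ h5] at h4
    have hn0 : (0 : ℝ) ≤ n := Nat.cast_nonneg n
    rw [div_le_iff₀ (by linarith)]
    nlinarith

end Pool.Agent.Results.MP_5ab805_an.LinearImages
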