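import Pool.Agent.V1157.TD.B

/-!
# The extension conjecture in `ℝ³` for products, multilinear densities and regular multipliers

Let `E` be the extension operator of the paraboloid in `ℝ³`. In the full conjectured range `q > 3` of
the problem (and in the full open range of the `L^p → L^q` form of the conjecture, `2 ≤ p`,
`1 / p < 1 - 2 / q`, which contains `p = q`) the estimate is proved for all sums of atoms. An atom is
a function supported in a square of side one, with any centre-symmetric position (a rotation by `θ`),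
of the form

`f(x) = (∫ a(u,l) b(v,l) dν(l)) g_1(u,v) ⋯ g_n(u,v)`,

where `(u,v)` are the coordinates of `x` in the rotated frame, `a` and `b` are arbitrary measurable
functions of one coordinate with values in a Hilbert space `L²(ν)` (for instance
`∑ a_k(u) b_k(v)`, with any number of terms), and the `g_i` are bounded by one and have half a
derivative in `L²` in one of the two variables, without any regularity in the other one, like all
functions of uniformly bounded variation in this variable. The size of the atom is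
`‖a‖_{L^p(L²)} ‖b‖_{L^p(L²)}`, and the constant in the estimate does not depend on the frame, the
Hilbert space, and the number of the atoms.

For one product `f(x) = a(u) b(v)` this is the estimate `‖E f‖_q ≤ C ‖f‖_q` of the problem, `q > 3`.
-/

set_option autoImplicit false

namespace Pool.Agent.Results.MP_5ab805_an.TensorDensities

open MeasureTheory Set Complex
open scoped ENNReal NNReal

/-- The Fourier extension operator of the paraboloid: `Ef(ξ) = ∫ exp(-i Φ(x)·ξ) f(x) dx`,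
`Φ(x) = (x_1, x_2, x_1² + x_2²)`. Functions on `U` are extended by zero. -/
noncomputable def ext (f : ℝ × ℝ → ℂ) (ξ : ℝ × ℝ × ℝ) : ℂ :=
  ∫ x : ℝ × ℝ, cexp (-(I * ((x.1 * ξ.1 + x.2 * ξ.2.1 + (x.1 ^ 2 + x.2 ^ 2) * ξ.2.2 : ℝ) : ℂ))) *
    f x

/-- The coordinates `(u, v)` of the point `x` in the orthonormal frame rotated by `θ`. -/
noncomputable def frame (θ : ℝ) (x : ℝ × ℝ) : ℝ × ℝ :=
  (x.1 * Real.cos θ + x.2 * Real.sin θ, x.2 * Real.cos θ - x.1 * Real.sin θ)

/-- The interval `[-1/2, 1/2]`. The square `J × J`, in any frame, contains the disc of radius `1/2`. -/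
def J : Set ℝ := Icc (-(1 / 2)) (1 / 2)

/-- Half a derivative in `L²` in the variable `v`, with constant `K`:
`∫ |g(u, v + h) - g(u, v)|² dv ≤ K h` for every `u`. -/
def HalfDerivative (K : ℝ≥0) (g : ℝ × ℝ → ℂ) : Prop :=
  ∀ u ∈ J, ∀ h ∈ Icc (0 : ℝ) 1, ∫⁻ v in Icc (-(1 / 2) : ℝ) (1 / 2 - h),
    ‖g (u, v + h) - g (u, v)‖ₑ ^ 2 ≤ ENNReal.ofReal (K * h)

/-- The norm of `a` in `L^p(ℝ; L²(ν))`. -/
noncomputable def mixedNorm {Λ : Type} [MeasurableSpace Λ] (ν : Measure Λ) (p : ℝ)
    (a : ℝ → Λ → ℂ) : ℝ≥0∞ := (∫⁻ u, (∫⁻ l, ‖a u l‖ₑ ^ 2 ∂ν) ^ (p / 2)) ^ (1 / p)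

/-- The function `f` is an atom of size at most `A`. -/
def Atom (p : ℝ) (K : ℝ≥0) (n : ℕ) (A : ℝ≥0∞) (f : ℝ × ℝ → ℂ) : Prop :=
  ∃ (θ : ℝ) (Λ : Type) (_ : MeasurableSpace Λ) (ν : Measure Λ) (_ : SFinite ν) (a b : ℝ → Λ → ℂ)
    (g : Fin n → ℝ × ℝ → ℂ),
    Measurable (Function.uncurry a) ∧ Measurable (Function.uncurry b) ∧
    (∀ u ∉ J, ∀ l, a u l = 0) ∧ (∀ v ∉ J, ∀ l, b v l = 0) ∧
    (∀ i, Measurable (g i)) ∧ (∀ i w, ‖g i w‖ ≤ 1) ∧
    (∀ i, HalfDerivative K (g i) ∨ HalfDerivative K fun w => g i w.swap) ∧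
    (∀ x, f x = (∫ l, a (frame θ x).1 l * b (frame θ x).2 l ∂ν) * ∏ i, g i (frame θ x)) ∧
    mixedNorm ν p a * mixedNorm ν p b ≤ A

/-- **The extension estimate for sums of atoms.** Let `q > 3`.

1. Let `p ≥ 2`, `1 / p < 1 - 2 / q` (for instance `p = q`), `K ≥ 0` and `n ∈ ℕ`. There is `C` such
   that for every function `f = ∑ F_j`, where `F_j` is an atom of size `A_j` and `∑ A_j < ∞`, the
   norm of `E f` in `L^q(ℝ³)` is at most `C ∑ A_j`.
2. There is `C` such that `‖E f‖_q ≤ C ‖f‖_q` for every function `f(x) = a(u) b(v)`, where `(u, v)`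
   are the coordinates of `x` in any frame, and `a`, `b` are measurable functions supported in
   `[-1/2, 1/2]`. -/
theorem result (q : ℝ) (hq : 3 < q) :
    (∀ p : ℝ, 2 ≤ p → 1 / p < 1 - 2 / q → ∀ (K : ℝ≥0) (n : ℕ),
      ∃ C : ℝ≥0, ∀ (F : ℕ → ℝ × ℝ → ℂ) (A : ℕ → ℝ≥0∞) (f : ℝ × ℝ → ℂ),
        (∀ j, Atom p K n (A j) (F j)) → ∑' j, A j ≠ ∞ → (∀ᵐ x, f x = ∑' j, F j x) →
        eLpNorm (ext f) (ENNReal.ofReal q) volume ≤ C * ∑' j, A j) ∧
    (∃ C : ℝ≥0, ∀ (θ : ℝ) (a b : ℝ → ℂ), Measurable a → Measurable b → (∀ u ∉ J, a u = 0) →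
      (∀ v ∉ J, b v = 0) →
      eLpNorm (ext fun x => a (frame θ x).1 * b (frame θ x).2) (ENNReal.ofReal q) volume ≤
        C * eLpNorm (fun x : ℝ × ℝ => a (frame θ x).1 * b (frame θ x).2)
          (ENNReal.ofReal q) volume) := by
  refine ⟨fun p hp hpq K n => ?_, Pool.Agent.V1157.TD.prod_bound q hq⟩
  refine Pool.Agent.V1157.TD.main p q hq hp ?_ K n
  have hq0 : 0 < q := by linarith
  have hp0 : 0 < p := by linarith
  have h1 : p * q * (1 / p) < p * q * (1 - 2 / q) := by gcongr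
  have e1 : p * q * (1 / p) = q := by field_simp
  have e2 : p * q * (1 - 2 / q) = p * (q - 2) := by field_simp
  rwa [e1, e2] at h1

end Pool.Agent.Results.MP_5ab805_an.TensorDensities
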